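import Pool.Agent.Helper65.LGS.Ser

/-!
# Subnormal series: images under surjective homomorphisms
-/

set_option autoImplicit false

namespace Pool.Agent.Helper72.LGS

open Subgroup

/-- the image of a group with a series under a surjective homomorphism has a series -/
theorem ser_surj {M : ℕ} (hM : 1 ≤ M) {G H : Type*} [Group G] [Group H] [Finite G] (f : G →* H)
    (hf : Function.Surjective f) (h : Ser M G) : Ser M H := by
  obtain ⟨r, s, h0, hr, h1⟩ := h
  refine ⟨r, fun i => (s i).map f, ?_, ?_, ?_⟩
  · show (s 0).map _ = ⊥
    rw [h0, Subgroup.map_bot]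
  · show (s r).map _ = ⊤
    rw [hr, ← MonoidHom.range_eq_map, MonoidHom.range_eq_top]
    exact hf
  · intro i hi
    obtain ⟨a, b, c⟩ := h1 i hi
    refine ⟨Subgroup.map_mono a, normal_map _ a b, ?_⟩
    have hd := relIndex_map_dvd f (s i) (s (i + 1))
    rcases c with c | c
    · rcases (Nat.dvd_prime c).1 hd with e | e
      · right
        show ((s i).map _).relIndex ((s (i + 1)).map _) ≤ M
        rw [e]
        exact hM
      · left
        show (((s i).map _).relIndex ((s (i + 1)).map _)).Prime
        rw [e]
        exact c
    · right
      refine (Nat.le_of_dvd ?_ hd).trans c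
      exact Nat.pos_of_ne_zero (Subgroup.index_ne_zero_of_finite
        (H := (s i).subgroupOf (s (i + 1))))

/-- the same along an isomorphism -/
theorem ser_equiv {M : ℕ} (hM : 1 ≤ M) {G H : Type*} [Group G] [Group H] [Finite G] (e : G ≃* H)
    (h : Ser M G) : Ser M H :=
  ser_surj hM e.toMonoidHom e.surjective h

/-- the image of a solvable group under a surjective homomorphism is solvable -/
theorem solvable_surj {G H : Type*} [Group G] [Group H] (f : G →* H)
    (hf : Function.Surjective f) [Group.IsSolvable G] : Group.IsSolvable H :=
  Group.isSolvable_of_surjective hf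

end Pool.Agent.Helper72.LGS
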